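import Mathlib
import Pool.Agent.TH442.NM.Main

set_option autoImplicit false

/-!
# `deg ^ 2 ≥ ∑ mult ^ 2` for curves whose multiplicities have bounded variance, every `r ≥ 10`

Let `P 1, …, P s` be very general points of the complex projective plane, `T` a set of `n ≥ 10` of
them and `K ≥ 1`. Every plane curve of degree `d` with multiplicities at least `μ i` whose spread
`∑_{i ∈ T} (μ i - S / n) ^ 2 + ∑_{i ∉ T} μ i ^ 2`, `S = ∑_{i ∈ T} μ i > 0`, is at most `K` satisfies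
`d ^ 2 ≥ ∑ μ i ^ 2`, unless `S ^ 2 < n e ^ 2 ≤ S ^ 2 + n (K - 1)` for some `e`. There are at most
`2 n (K - 1) + 4` such exceptional sums `S` in every interval `[X, 2 X)`, and none if `K = 1`.
-/

namespace Pool.Agent.Results.MP_3c72fe_ag.BoundedVariance

open MvPolynomial

/-- The homogeneous ideal of the point `(p 0 : p 1 : 1)`. -/
noncomputable def ptIdeal (p : Fin 2 → ℂ) : Ideal (MvPolynomial (Fin 3) ℂ) :=
  Ideal.span ({X 0 - C (p 0) * X 2, X 1 - C (p 1) * X 2} : Set (MvPolynomial (Fin 3) ℂ))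

/-- The sum of the multiplicities at the points of `T`. -/
def sumOn {s : ℕ} (T : Finset (Fin s)) (μ : Fin s → ℕ) : ℕ := ∑ i ∈ T, μ i

/-- `n` times the variance of the multiplicities at the `n` points of `T`, plus the squares of the
other multiplicities. -/
noncomputable def spread {s : ℕ} (T : Finset (Fin s)) (μ : Fin s → ℕ) : ℝ :=
  ∑ i ∈ T, ((μ i : ℝ) - (sumOn T μ : ℝ) / T.card) ^ 2 + ∑ i ∈ Tᶜ, (μ i : ℝ) ^ 2

/-- `S` is exceptional for `n` points and spread `K`. -/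
def Exceptional (n K S : ℕ) : Prop :=
  ∃ e : ℕ, S ^ 2 < n * e ^ 2 ∧ n * e ^ 2 ≤ S ^ 2 + n * (K - 1)

theorem result :
    (∀ s : ℕ, ∃ G : ℕ → MvPolynomial (Fin s × Fin 2) ℂ, (∀ j, G j ≠ 0) ∧
      ∀ P : Fin s → Fin 2 → ℂ,
        (∀ j, MvPolynomial.eval (fun ij : Fin s × Fin 2 => P ij.1 ij.2) (G j) ≠ 0) →
        ∀ (d : ℕ) (μ : Fin s → ℕ) (F : MvPolynomial (Fin 3) ℂ), F ≠ 0 →
          F.IsHomogeneous d → (∀ i, F ∈ ptIdeal (P i) ^ (μ i)) →
          ∀ (T : Finset (Fin s)) (K : ℕ), 10 ≤ T.card → 0 < sumOn T μ → spread T μ ≤ K →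
            ¬ Exceptional T.card K (sumOn T μ) → ∑ i, (μ i) ^ 2 ≤ d ^ 2) ∧
    (∀ n K X : ℕ,
      ({S | Exceptional n K S} ∩ Set.Ico X (2 * X)).ncard ≤ 2 * n * (K - 1) + 4) ∧
    (∀ n S : ℕ, ¬ Exceptional n 1 S) := by
  have hiff : ∀ n K S, Exceptional n K S ↔ Pool.Agent.TH442.NM.Exc n (n * (K - 1) + 1) S := by
    intro n K S
    constructor
    · rintro ⟨e, h1, h2⟩
      exact ⟨e, h1, by omega⟩
    · rintro ⟨e, h1, h2⟩
      exact ⟨e, h1, by omega⟩
  refine ⟨fun s => ?_, fun n K X => ?_, fun n S => ?_⟩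
  · obtain ⟨G, hG, hG'⟩ := Pool.Agent.TH603.Cut.exists_family (Fin s × Fin 2)
    refine ⟨G, hG, fun P hP d μ F hF hFd hmu T K hT hS hK hE => ?_⟩
    refine Pool.Agent.TH442.NM.bounded (hG' _ hP) hF hFd hmu T hT hS (K := K) ?_ ?_
    · unfold spread sumOn at hK
      unfold Pool.Agent.TH442.NM.spr
      push_cast at hK
      exact hK
    · rw [hiff] at hE
      exact hE
  · have h := Pool.Agent.TH442.NM.exc_card n (n * (K - 1) + 1) X
    have e : {S | Exceptional n K S} = {S | Pool.Agent.TH442.NM.Exc n (n * (K - 1) + 1) S} := by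
      ext S
      exact hiff n K S
    rw [e]
    refine h.trans (le_of_eq ?_)
    ring
  · rintro ⟨e, h1, h2⟩
    simp only [Nat.sub_self, mul_zero, add_zero] at h2
    omega

end Pool.Agent.Results.MP_3c72fe_ag.BoundedVariance
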