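import Mathlib
import Pool.Agent.TH718.UG2.Family

set_option autoImplicit false

/-!
# `d² ≥ ∑ μ_i²` for every curve through very general points whose variance is at most linear

Let `P_1, …, P_r` be very general points of the complex projective plane and `T` a set of `t ≥ 12` of them.
Every plane curve of degree `d ≥ 1` with multiplicity at least `μ_i` at `P_i` satisfies
`d² - ∑ μ_i² ≥ (2 g S + g²) / t - V`, where `g = 1 - 3 / √t`, `S = ∑_T μ_i` and
`V = ∑_T (μ_i - S / t)² + ∑_{i ∉ T} μ_i²`. For `t = 10, 11` the same holds if `3 ∤ d`.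
-/

namespace Pool.Agent.Results.MP_3c72fe_ag.LinearVariance

open MvPolynomial

/-- The ideal of the point `(p 0 : p 1 : 1)`. -/
noncomputable def ptIdeal (p : Fin 2 → ℂ) : Ideal (MvPolynomial (Fin 3) ℂ) :=
  Ideal.span {X 0 - C (p 0) * X 2, X 1 - C (p 1) * X 2}

/-- The sum of the multiplicities over `T`. -/
def sumOn {r : ℕ} (T : Finset (Fin r)) (μ : Fin r → ℕ) : ℕ := ∑ i ∈ T, μ i

/-- The sum of the squares of the deviations from the mean over `T`, and of the squares off `T`. -/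
noncomputable def spread {r : ℕ} (T : Finset (Fin r)) (μ : Fin r → ℕ) : ℝ :=
  ∑ i ∈ T, ((μ i : ℝ) - sumOn T μ / T.card) ^ 2 + ∑ i ∈ Tᶜ, (μ i : ℝ) ^ 2

/-- `1 - 3 / √t`, positive for `t ≥ 10`. -/
noncomputable def gap (t : ℕ) : ℝ := 1 - 3 / √(t : ℝ)

theorem result (r : ℕ) : ∃ F : ℕ → MvPolynomial (Fin r × Fin 2) ℂ, (∀ k, F k ≠ 0) ∧
    ∀ P : Fin r → Fin 2 → ℂ, (∀ k, eval (fun q : Fin r × Fin 2 => P q.1 q.2) (F k) ≠ 0) →
      ∀ (d : ℕ) (μ : Fin r → ℕ) (G : MvPolynomial (Fin 3) ℂ), 0 < d → G ≠ 0 → G.IsHomogeneous d →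
        (∀ i, G ∈ ptIdeal (P i) ^ μ i) →
        ∀ T : Finset (Fin r), (12 ≤ T.card ∨ (10 ≤ T.card ∧ ¬ 3 ∣ d)) →
          (2 * gap T.card * sumOn T μ + gap T.card ^ 2) / T.card - spread T μ ≤
              (d : ℝ) ^ 2 - ∑ i, (μ i : ℝ) ^ 2 ∧
            (spread T μ ≤ (2 * gap T.card * sumOn T μ + gap T.card ^ 2) / T.card →
              ∑ i, μ i ^ 2 ≤ d ^ 2) := by
  classical
  obtain ⟨F, hF, hF'⟩ := TH718.UG2.exists_family r
  refine ⟨F, hF, fun P hP d μ G hd hG hGd hGm T hT => ?_⟩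
  have hT10 : 10 ≤ T.card := by omega
  obtain ⟨t, ht⟩ : ∃ t, T.card = t := ⟨_, rfl⟩
  have htR : (10 : ℝ) ≤ t := by rw [← ht]; exact_mod_cast hT10
  have ht0 : (0 : ℝ) < t := by linarith
  -- the gap
  have hgap : (sumOn T μ : ℝ) + gap t ≤ √(t : ℝ) * d := by
    by_contra hcon
    rw [not_le] at hcon
    have hyp : TH718.UG2.Hyp d μ T := by
      left
      refine ⟨by omega, ?_⟩
      rw [ht]
      unfold gap sumOn at hcon
      push_cast at hcon
      linarith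
    have h0 := hF' P hP d μ T hd hT10 hyp
    apply hG
    have hmem : G ∈ TH718.UG2.forms P d μ := by
      unfold TH718.UG2.forms
      refine ⟨(mem_homogeneousSubmodule _ _).2 hGd, ?_⟩
      rw [SetLike.mem_coe, Submodule.restrictScalars_mem, Ideal.mem_iInf]
      exact fun i => hGm i
    rw [h0] at hmem
    exact (Submodule.mem_bot ℂ).1 hmem
  have hg0 : 0 ≤ gap t := by
    unfold gap
    have h1 : (3 : ℝ) ≤ √(t : ℝ) := by
      apply Real.le_sqrt_of_sq_le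
      linarith
    have h2 : 3 / √(t : ℝ) ≤ 1 := by
      rw [div_le_one (by linarith)]
      exact h1
    linarith
  have hS0 : (0 : ℝ) ≤ sumOn T μ := Nat.cast_nonneg _
  have hsq : ((sumOn T μ : ℝ) + gap t) ^ 2 ≤ t * (d : ℝ) ^ 2 := by
    have h1 := pow_le_pow_left₀ (by linarith) hgap 2
    have h2 : (√(t : ℝ) * d) ^ 2 = t * (d : ℝ) ^ 2 := by
      rw [mul_pow, Real.sq_sqrt ht0.le]
    rwa [h2] at h1
  -- the sum of the squares
  have hsum : ∑ i, (μ i : ℝ) ^ 2 = (sumOn T μ : ℝ) ^ 2 / t + spread T μ := by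
    have h1 : ∑ i ∈ T, (μ i : ℝ) = sumOn T μ := by unfold sumOn; push_cast; rfl
    have h2 : ∑ i ∈ T, ((μ i : ℝ) - sumOn T μ / T.card) ^ 2 =
        ∑ i ∈ T, (μ i : ℝ) ^ 2 - (sumOn T μ : ℝ) ^ 2 / t := by
      have h3 : ∀ i ∈ T, ((μ i : ℝ) - sumOn T μ / T.card) ^ 2 =
          (μ i : ℝ) ^ 2 - 2 * (sumOn T μ / t) * μ i + (sumOn T μ / t : ℝ) ^ 2 := by
        intro i _
        rw [ht]; ring
      rw [Finset.sum_congr rfl h3, Finset.sum_add_distrib, Finset.sum_sub_distrib,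
        ← Finset.mul_sum, h1, Finset.sum_const, ht, nsmul_eq_mul]
      field_simp
      ring
    unfold spread
    rw [h2, ← Finset.sum_add_sum_compl T (fun i => (μ i : ℝ) ^ 2)]
    ring
  have hmain : (2 * gap T.card * sumOn T μ + gap T.card ^ 2) / T.card - spread T μ ≤
      (d : ℝ) ^ 2 - ∑ i, (μ i : ℝ) ^ 2 := by
    rw [hsum, ht]
    have h1 : ((sumOn T μ : ℝ) + gap t) ^ 2 / t ≤ (d : ℝ) ^ 2 := by
      rw [div_le_iff₀ ht0]; linarith
    have h2 : ((sumOn T μ : ℝ) + gap t) ^ 2 / t =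
        (sumOn T μ : ℝ) ^ 2 / t + (2 * gap t * sumOn T μ + gap t ^ 2) / t := by
      rw [← add_div]; congr 1; ring
    linarith
  refine ⟨hmain, fun hV => ?_⟩
  have h1 : ∑ i, (μ i : ℝ) ^ 2 ≤ (d : ℝ) ^ 2 := by linarith
  exact_mod_cast h1

end Pool.Agent.Results.MP_3c72fe_ag.LinearVariance
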